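import Pool.Agent.Lib.MP_a55e6f_al.H52.Rep

/-!
# MP_a55e6f_al, module S4: the dichotomy
-/

set_option autoImplicit false

attribute [local instance 100] LieRing.ofAssociativeRing

namespace Pool.Agent.A55.H52

/-! ## Linear maps out of the monoid algebra -/

section lin
variable {k M N : Type} [Field k] [AddCommGroup N] [Module k N]

/-- The linear map with given values on the basis. -/
noncomputable def linB (F : M → N) : MonoidAlgebra k M →ₗ[k] N where
  toFun b := b.coeff.sum fun w c => c • F w
  map_add' a b := by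
    rw [MonoidAlgebra.coeff_add]
    exact Finsupp.sum_add_index' (by simp) (by intro w c d; rw [add_smul])
  map_smul' r a := by
    rw [MonoidAlgebra.coeff_smul, Finsupp.sum_smul_index' (by simp), Finsupp.smul_sum]
    simp [smul_smul]

theorem linB_single (F : M → N) (w : M) : linB (k := k) F (MonoidAlgebra.single w 1) = F w := by
  simp [linB]

/-- Linear maps agree on an element if they agree on its words. -/
theorem lin_ext_on (f g : MonoidAlgebra k M →ₗ[k] N) (b : MonoidAlgebra k M)
    (h : ∀ w, b.coeff w ≠ 0 → f (MonoidAlgebra.single w 1) = g (MonoidAlgebra.single w 1)) :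
    f b = g b := by
  classical
  have hb : b = ∑ w ∈ b.coeff.support, b.coeff w • MonoidAlgebra.single w (1 : k) := by
    have := MonoidAlgebra.sum_coeff_single b
    conv_lhs => rw [← this]
    rw [Finsupp.sum]
    refine Finset.sum_congr rfl fun w _ => ?_
    rw [MonoidAlgebra.smul_single, smul_eq_mul, mul_one]
  rw [hb, map_sum, map_sum]
  refine Finset.sum_congr rfl fun w hw => ?_
  rw [map_smul, map_smul, h w (Finsupp.mem_support_iff.1 hw)]

end lin

/-! ## Parsing words -/

section parse
variable {Y : Type}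

/-- Split a word at its first right letter. -/
def parse : List (Y ⊕ Y) → Option (List (Y ⊕ Y) × Y × List (Y ⊕ Y))
  | [] => none
  | (Sum.inr z :: t) => some ([], z, t)
  | (Sum.inl y :: t) => (parse t).map fun p => (Sum.inl y :: p.1, p.2.1, p.2.2)

theorem parse_some (w : List (Y ⊕ Y)) (z : Y) (t : List (Y ⊕ Y))
    (hw : w.countP (fun c => c.isRight) = 0) :
    parse (w ++ Sum.inr z :: t) = some (w, z, t) := by
  induction w with
  | nil => rfl
  | cons a w ih =>
    cases a with
    | inl y =>
      rw [List.countP_cons_of_neg (by simp)] at hw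
      rw [List.cons_append, parse, ih hw]
      rfl
    | inr y =>
      rw [List.countP_cons_of_pos (by simp)] at hw
      omega

theorem parse_none (w : List (Y ⊕ Y)) (hw : w.countP (fun c => c.isRight) = 0) :
    parse w = none := by
  induction w with
  | nil => rfl
  | cons a w ih =>
    cases a with
    | inl y =>
      rw [List.countP_cons_of_neg (by simp)] at hw
      rw [parse, ih hw]
      rfl
    | inr y =>
      rw [List.countP_cons_of_pos (by simp)] at hw
      omega

theorem parse_cases (l : List (Y ⊕ Y)) : l.countP (fun c => c.isRight) = 0 ∨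
    ∃ w z t, l = w ++ Sum.inr z :: t ∧ w.countP (fun c => c.isRight) = 0 := by
  induction l with
  | nil => left; rfl
  | cons a l ih =>
    cases a with
    | inl y =>
      rcases ih with h | ⟨w, z, t, h1, h2⟩
      · left
        rw [List.countP_cons_of_neg (by simp)]
        exact h
      · right
        refine ⟨Sum.inl y :: w, z, t, by rw [h1]; rfl, ?_⟩
        rw [List.countP_cons_of_neg (by simp)]
        exact h2
    | inr y => right; exact ⟨[], y, l, rfl, rfl⟩

/-- A word `w z t`. -/
def wzt (w : List (Y ⊕ Y)) (z : Y) (t : List (Y ⊕ Y)) : FreeMonoid (Y ⊕ Y) :=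
  FreeMonoid.ofList (w ++ Sum.inr z :: t)

theorem zd_ofList (l : List (Y ⊕ Y)) :
    zd (FreeMonoid.ofList l) = l.countP (fun c => c.isRight) := rfl

theorem zd_wzt (w : List (Y ⊕ Y)) (z : Y) (t : List (Y ⊕ Y))
    (hw : w.countP (fun c => c.isRight) = 0) :
    zd (wzt w z t) = 1 + zd (FreeMonoid.ofList t) := by
  rw [wzt, zd_ofList, zd_ofList, List.countP_append, List.countP_cons_of_pos (by simp), hw]
  omega

theorem zd_add : IsAdd (zd : FreeMonoid (Y ⊕ Y) → ℕ) where
  map_one := rfl
  map_mul a b := by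
    rw [zd, zd, zd, FreeMonoid.toList_mul, List.countP_append]

theorem cases_word (W : FreeMonoid (Y ⊕ Y)) : zd W = 0 ∨
    ∃ w z t, W = wzt w z t ∧ w.countP (fun c => c.isRight) = 0 := by
  rcases parse_cases W.toList with h | ⟨w, z, t, h1, h2⟩
  · left; exact h
  · right; exact ⟨w, z, t, by rw [wzt, ← h1]; rfl, h2⟩

end parse

/-! ## The maps Phi -/

section Phi
variable {k Y : Type} [Field k]

open scoped Classical in
/-- The values of `Phi` on words. -/
noncomputable def PhiW (z0 : Y) (φ : BA k Y →ₗ[k] k) (W : FreeMonoid (Y ⊕ Y)) : BA k Y :=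
  match parse W.toList with
  | none => 0
  | some (w, z, t) => if z = z0 then
      φ (MonoidAlgebra.single (FreeMonoid.ofList t) 1) •
        MonoidAlgebra.single (FreeMonoid.ofList w) 1 else 0

/-- `w z w' ↦ φ(w') w`. -/
noncomputable def Phi (z0 : Y) (φ : BA k Y →ₗ[k] k) : BA k Y →ₗ[k] BA k Y :=
  linB (PhiW z0 φ)

theorem PhiW_zero (z0 : Y) (φ : BA k Y →ₗ[k] k) (W : FreeMonoid (Y ⊕ Y)) (h : zd W = 0) :
    PhiW z0 φ W = 0 := by
  rw [PhiW, parse_none _ h]

open scoped Classical in
theorem PhiW_wzt (z0 : Y) (φ : BA k Y →ₗ[k] k) (w : List (Y ⊕ Y)) (z : Y) (t : List (Y ⊕ Y))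
    (hw : w.countP (fun c => c.isRight) = 0) :
    PhiW z0 φ (wzt w z t) = if z = z0 then
      φ (MonoidAlgebra.single (FreeMonoid.ofList t) 1) •
        MonoidAlgebra.single (FreeMonoid.ofList w) 1 else 0 := by
  rw [PhiW, wzt, FreeMonoid.toList_ofList, parse_some w z t hw]

theorem Phi_left (z0 : Y) (φ : BA k Y →ₗ[k] k) (c b : BA k Y) (hc : Hom zd 0 c) :
    Phi z0 φ (c * b) = c * Phi z0 φ b := by
  classical
  have h1 : (Phi z0 φ ∘ₗ LinearMap.mulRight k b) c
      = (LinearMap.mulRight k (Phi z0 φ b)) c := by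
    refine lin_ext_on _ _ c fun w1 hw1 => ?_
    have hz1 : zd w1 = 0 := hc w1 hw1
    rw [LinearMap.comp_apply, LinearMap.mulRight_apply, LinearMap.mulRight_apply]
    have h2 : (Phi z0 φ ∘ₗ LinearMap.mulLeft k (MonoidAlgebra.single w1 1)) b
        = (LinearMap.mulLeft k (MonoidAlgebra.single w1 1) ∘ₗ Phi z0 φ) b := by
      refine lin_ext_on _ _ b fun W _ => ?_
      rw [LinearMap.comp_apply, LinearMap.comp_apply, LinearMap.mulLeft_apply,
        LinearMap.mulLeft_apply, MonoidAlgebra.single_mul_single, one_mul, Phi, linB_single,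
        linB_single]
      rcases cases_word W with h | ⟨w, z, t, rfl, hw⟩
      · rw [PhiW_zero z0 φ W h, PhiW_zero, mul_zero]
        rw [zd_add.map_mul, hz1, h]
      · have h3 : w1 * wzt w z t = wzt (w1.toList ++ w) z t := by
          rw [wzt, wzt, List.append_assoc]
          rfl
        have h4 : (w1.toList ++ w).countP (fun c => c.isRight) = 0 := by
          rw [List.countP_append, hw]
          exact hz1
        rw [h3, PhiW_wzt _ _ _ _ _ h4, PhiW_wzt _ _ _ _ _ hw]
        by_cases h : z = z0
        · rw [if_pos h, if_pos h, mul_smul_comm, MonoidAlgebra.single_mul_single, one_mul]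
          rfl
        · rw [if_neg h, if_neg h, mul_zero]
    exact h2
  exact h1

open scoped Classical in
theorem Phi_word_mul (z0 : Y) (φ : BA k Y →ₗ[k] k) (w : List (Y ⊕ Y)) (z : Y)
    (t : List (Y ⊕ Y)) (hw : w.countP (fun c => c.isRight) = 0) (b : BA k Y) :
    Phi z0 φ (MonoidAlgebra.single (wzt w z t) 1 * b) = if z = z0 then
      φ (MonoidAlgebra.single (FreeMonoid.ofList t) 1 * b) •
        MonoidAlgebra.single (FreeMonoid.ofList w) 1 else 0 := by
  by_cases h : z = z0
  · rw [if_pos h]
    have h2 : (Phi z0 φ ∘ₗ LinearMap.mulLeft k (MonoidAlgebra.single (wzt w z t) 1)) b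
        = ((φ ∘ₗ LinearMap.mulLeft k (MonoidAlgebra.single (FreeMonoid.ofList t) 1)).smulRight
          (MonoidAlgebra.single (FreeMonoid.ofList w) (1 : k))) b := by
      refine lin_ext_on _ _ b fun W _ => ?_
      rw [LinearMap.comp_apply, LinearMap.mulLeft_apply, LinearMap.smulRight_apply,
        LinearMap.comp_apply, LinearMap.mulLeft_apply, MonoidAlgebra.single_mul_single,
        MonoidAlgebra.single_mul_single, one_mul, Phi, linB_single]
      have h3 : wzt w z t * W = wzt w z (t ++ W.toList) := by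
        rw [wzt, wzt]
        show (w ++ Sum.inr z :: t) ++ W.toList = _
        rw [List.append_assoc]
        rfl
      rw [h3, PhiW_wzt _ _ _ _ _ hw, if_pos h]
      rfl
    exact h2
  · rw [if_neg h]
    have h2 : (Phi z0 φ ∘ₗ LinearMap.mulLeft k (MonoidAlgebra.single (wzt w z t) 1)) b
        = (0 : BA k Y →ₗ[k] BA k Y) b := by
      refine lin_ext_on _ _ b fun W _ => ?_
      rw [LinearMap.comp_apply, LinearMap.mulLeft_apply, MonoidAlgebra.single_mul_single,
        one_mul, Phi, linB_single]
      have h3 : wzt w z t * W = wzt w z (t ++ W.toList) := by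
        rw [wzt, wzt]
        show (w ++ Sum.inr z :: t) ++ W.toList = _
        rw [List.append_assoc]
        rfl
      rw [h3, PhiW_wzt _ _ _ _ _ hw, if_neg h]
      rfl
    exact h2

/-- The space `J_n` (with `n = N - 1`). -/
noncomputable def Jsub {J : Type} {m : ℕ} (τ : J → BA k Y) (x : Fin m → BA k Y)
    (v : Fin m → ℕ) (n : ℕ) : Submodule k (BA k Y) :=
  Submodule.span k ({b | ∃ (j : J) (c : BA k Y), Hom zd n c ∧ b = c * τ j} ∪
    {b | ∃ (i : Fin m) (c : BA k Y), v i ≤ n ∧ Hom zd (n - v i) c ∧ b = c * x i})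

theorem Hom_single {M : Type} (z : M → ℕ) (w : M) (c : k) :
    Hom z (z w) (MonoidAlgebra.single w c) := by
  classical
  intro u hu
  rw [MonoidAlgebra.coeff_single, Finsupp.single_apply] at hu
  by_cases h : w = u
  · rw [h]
  · rw [if_neg h] at hu; exact absurd rfl hu

theorem Phi_kill {J : Type} {m : ℕ} (τ : J → BA k Y) (x : Fin m → BA k Y)
    (v : Fin m → ℕ) (n : ℕ) (z0 : Y) (φ : BA k Y →ₗ[k] k)
    (hφ : ∀ b ∈ Jsub τ x v n, φ b = 0) (b : BA k Y) (hb : b ∈ Wsub τ x v (n + 1)) :
    Phi z0 φ b = 0 := by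
  classical
  -- general killing
  have key : ∀ (c y : BA k Y) (s : ℕ), Hom zd (s + 1) c →
      (∀ t : List (Y ⊕ Y), zd (FreeMonoid.ofList t) = s →
        φ (MonoidAlgebra.single (FreeMonoid.ofList t) 1 * y) = 0) →
      Phi z0 φ (c * y) = 0 := by
    intro c y s hc hy
    have h1 : (Phi z0 φ ∘ₗ LinearMap.mulRight k y) c = (0 : BA k Y →ₗ[k] BA k Y) c := by
      refine lin_ext_on _ _ c fun W hW => ?_
      have hzW := hc W hW
      rcases cases_word W with h | ⟨w, z, t, rfl, hw⟩
      · omega
      · rw [zd_wzt _ _ _ hw] at hzW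
        rw [LinearMap.comp_apply, LinearMap.mulRight_apply, Phi_word_mul _ _ _ _ _ hw,
          hy t (by omega)]
        simp
    exact h1
  have h2 : Wsub τ x v (n + 1) ≤ LinearMap.ker (Phi z0 φ) := by
    rw [Wsub, Submodule.span_le]
    rintro b (⟨j, c, hc, rfl⟩ | ⟨i, c, hv, hc, rfl⟩)
    · show Phi z0 φ (c * τ j) = 0
      refine key c (τ j) n hc fun t ht => hφ _ (Submodule.subset_span (Or.inl ⟨j, _, ?_, rfl⟩))
      rw [← ht]
      exact Hom_single zd _ 1
    · show Phi z0 φ (c * x i) = 0
      refine key c (x i) (n - v i) ?_ fun t ht =>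
        hφ _ (Submodule.subset_span (Or.inr ⟨i, _, by omega, ?_, rfl⟩))
      · rw [show n - v i + 1 = n + 1 - v i by omega]; exact hc
      · rw [← ht]
        exact Hom_single zd _ 1
  exact h2 hb

/-- If all `Phi` vanish at `x0`, homogeneous of degree `n + 1`, then `x0 ∈ W_{n+1}`. -/
theorem mem_W {J : Type} {m : ℕ} (τ : J → BA k Y) (x : Fin m → BA k Y)
    (v : Fin m → ℕ) (n : ℕ) (x0 : BA k Y) (hx0 : Hom zd (n + 1) x0)
    (h : ∀ (z0 : Y) (φ : BA k Y →ₗ[k] k), (∀ b ∈ Jsub τ x v n, φ b = 0) → Phi z0 φ x0 = 0) :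
    x0 ∈ Wsub τ x v (n + 1) := by
  classical
  -- by duality
  by_contra hnot
  obtain ⟨ψ, hψ, hW⟩ := Submodule.exists_le_ker_of_notMem hnot
  -- the key of a word
  let key : FreeMonoid (Y ⊕ Y) → Option (List (Y ⊕ Y) × Y) :=
    fun W => (parse W.toList).map fun p => (p.1, p.2.1)
  have hkey : ∀ (w : List (Y ⊕ Y)) (z : Y) (t : List (Y ⊕ Y)),
      w.countP (fun c => c.isRight) = 0 → key (wzt w z t) = some (w, z) := by
    intro w z t hw
    show (parse (wzt w z t).toList).map _ = _
    rw [wzt, FreeMonoid.toList_ofList, parse_some w z t hw]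
    rfl
  have hsum : ψ x0 = ∑ W ∈ x0.coeff.support, x0.coeff W * ψ (MonoidAlgebra.single W 1) := by
    have hb : x0 = ∑ W ∈ x0.coeff.support, x0.coeff W • MonoidAlgebra.single W (1 : k) := by
      have := MonoidAlgebra.sum_coeff_single x0
      conv_lhs => rw [← this]
      rw [Finsupp.sum]
      refine Finset.sum_congr rfl fun w _ => ?_
      rw [MonoidAlgebra.smul_single, smul_eq_mul, mul_one]
    conv_lhs => rw [hb]
    rw [map_sum]
    refine Finset.sum_congr rfl fun W _ => ?_
    rw [map_smul, smul_eq_mul]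
  have hfib := Finset.sum_fiberwise_of_maps_to (s := x0.coeff.support)
    (t := x0.coeff.support.image key) (g := key)
    (fun W hW => Finset.mem_image_of_mem key hW)
    (fun W => x0.coeff W * ψ (MonoidAlgebra.single W 1))
  rw [← hsum] at hfib
  have hne : ∃ κ ∈ x0.coeff.support.image key,
      ∑ W ∈ x0.coeff.support with key W = κ, x0.coeff W * ψ (MonoidAlgebra.single W 1) ≠ 0 := by
    by_contra hall
    push Not at hall
    rw [Finset.sum_eq_zero hall] at hfib
    exact hψ hfib.symm
  obtain ⟨κ, hκ, hne⟩ := hne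
  obtain ⟨W0, hW0, rfl⟩ := Finset.mem_image.1 hκ
  have hzW0 := hx0 W0 (Finsupp.mem_support_iff.1 hW0)
  rcases cases_word W0 with h0 | ⟨w, z, t0, rfl, hw⟩
  · omega
  rw [hkey w z t0 hw] at hne
  -- the functional
  let φ : BA k Y →ₗ[k] k := ψ ∘ₗ LinearMap.mulLeft k (MonoidAlgebra.single (wzt w z []) 1)
  have hφ : ∀ b ∈ Jsub τ x v n, φ b = 0 := by
    have h3 : Jsub τ x v n ≤ LinearMap.ker φ := by
      rw [Jsub, Submodule.span_le]
      have hmulhom : ∀ (c : BA k Y) (s : ℕ), Hom zd s c →
          Hom zd (s + 1) (MonoidAlgebra.single (wzt w z []) 1 * c) := by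
        intro c s hc
        have h4 : comp zd (1 + s) (MonoidAlgebra.single (wzt w z []) 1 * c)
            = MonoidAlgebra.single (wzt w z []) 1 * c := by
          have hz1 : zd (wzt w z []) = 1 := by rw [zd_wzt _ _ _ hw]; rfl
          rw [comp_mul zd zd_add, Finset.sum_eq_single (1, s)]
          · rw [comp_hom zd s c hc, comp_single, if_pos hz1]
          · intro p hp hne
            rw [Finset.HasAntidiagonal.mem_antidiagonal] at hp
            rw [comp_single, hz1]
            by_cases h5 : 1 = p.1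
            · refine absurd (Prod.ext h5.symm ?_) hne
              show p.2 = s
              omega
            · rw [if_neg h5, zero_mul]
          · intro hn
            exact absurd (Finset.HasAntidiagonal.mem_antidiagonal.2
              (show (1, s).1 + (1, s).2 = 1 + s from rfl)) hn
        rw [← h4, add_comm 1 s]
        exact hom_comp zd _ _
      rintro b (⟨j, c, hc, rfl⟩ | ⟨i, c, hv, hc, rfl⟩)
      · show ψ (MonoidAlgebra.single (wzt w z []) 1 * (c * τ j)) = 0
        rw [← mul_assoc]
        exact hW (Submodule.subset_span (Or.inl ⟨j, _, hmulhom c n hc, rfl⟩))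
      · show ψ (MonoidAlgebra.single (wzt w z []) 1 * (c * x i)) = 0
        rw [← mul_assoc]
        refine hW (Submodule.subset_span (Or.inr ⟨i, _, by omega, ?_, rfl⟩))
        rw [show n + 1 - v i = n - v i + 1 by omega]
        exact hmulhom c _ hc
    exact fun b hb => h3 hb
  -- evaluate
  have hPhi := h z φ hφ
  have hcoef : (Phi z φ x0).coeff (FreeMonoid.ofList w)
      = ∑ W ∈ x0.coeff.support with key W = some (w, z),
        x0.coeff W * ψ (MonoidAlgebra.single W 1) := by
    have h6 : Phi z φ x0 = ∑ W ∈ x0.coeff.support, x0.coeff W • PhiW z φ W := rfl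
    rw [h6, MonoidAlgebra.coeff_sum, Finsupp.finsetSum_apply, Finset.sum_filter]
    refine Finset.sum_congr rfl fun W hW => ?_
    rw [MonoidAlgebra.coeff_smul_apply, smul_eq_mul]
    have hzW := hx0 W (Finsupp.mem_support_iff.1 hW)
    rcases cases_word W with h0 | ⟨w', z', t', rfl, hw'⟩
    · omega
    · rw [PhiW_wzt _ _ _ _ _ hw', hkey w' z' t' hw']
      by_cases h7 : z' = z
      · rw [if_pos h7]
        by_cases h8 : w' = w
        · rw [if_pos (by rw [h7, h8])]
          subst h7 h8
          rw [MonoidAlgebra.coeff_smul_apply, MonoidAlgebra.coeff_single, Finsupp.single_eq_same,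
            smul_eq_mul, mul_one]
          show x0.coeff (wzt w' z' t') * ψ (MonoidAlgebra.single (wzt w' z' []) 1 *
            MonoidAlgebra.single (FreeMonoid.ofList t') 1) = _
          rw [MonoidAlgebra.single_mul_single, one_mul]
          have h9 : wzt w' z' [] * FreeMonoid.ofList t' = wzt w' z' t' := by
            rw [wzt, wzt, ← FreeMonoid.ofList_append, List.append_assoc]
            rfl
          rw [h9]
        · rw [if_neg (by
            intro h9
            exact h8 (congrArg Prod.fst (Option.some.inj h9)))]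
          rw [MonoidAlgebra.coeff_smul_apply, MonoidAlgebra.coeff_single, Finsupp.single_apply,
            if_neg (fun h9 => h8 (FreeMonoid.ofList.injective h9)), smul_zero, mul_zero]
      · rw [if_neg h7, if_neg (by
          intro h9
          exact h7 (congrArg Prod.snd (Option.some.inj h9)))]
        rw [MonoidAlgebra.coeff_zero, Finsupp.zero_apply, mul_zero]
  rw [hPhi] at hcoef
  exact hne hcoef.symm

/-- The subalgebra of elements of degree 0. -/
def B0 (k Y : Type) [Field k] : Subalgebra k (BA k Y) where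
  carrier := {b | Hom zd 0 b}
  mul_mem' := by
    intro a b ha hb
    show Hom zd 0 (a * b)
    have h : comp zd 0 (a * b) = a * b := by
      rw [comp_mul zd zd_add]
      rw [Finset.sum_eq_single (0, 0)]
      · rw [comp_hom zd 0 a ha, comp_hom zd 0 b hb]
      · intro p hp hne
        rw [Finset.HasAntidiagonal.mem_antidiagonal] at hp
        refine absurd (Prod.ext ?_ ?_) hne
        · show p.1 = 0
          omega
        · show p.2 = 0
          omega
      · intro hn
        exact absurd (Finset.HasAntidiagonal.mem_antidiagonal.2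
          (show (0, 0).1 + (0, 0).2 = 0 from rfl)) hn
    rw [← h]
    exact hom_comp zd _ _
  add_mem' := fun ha hb => (homSub k zd 0).add_mem ha hb
  algebraMap_mem' := by
    intro r
    show Hom zd 0 (algebraMap k (BA k Y) r)
    rw [Algebra.algebraMap_eq_smul_one]
    refine (homSub k zd 0).smul_mem r ?_
    rw [mem_homSub, MonoidAlgebra.one_def]
    exact Hom_single zd (1 : FreeMonoid (Y ⊕ Y)) 1

theorem ev_range {J Q : Type} [Ring Q] [Algebra k Q] (τ : J → Q) :
    (ev (k := k) τ).range = Algebra.adjoin k (Set.range τ) := by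
  apply le_antisymm
  · rintro _ ⟨p, rfl⟩
    have hlin : ∀ p : FA k J, ev (k := k) τ p ∈ Algebra.adjoin k (Set.range τ) := by
      intro p
      induction p using MonoidAlgebra.induction_linear with
      | zero => rw [map_zero]; exact Subalgebra.zero_mem _
      | add x y hx hy => rw [map_add]; exact Subalgebra.add_mem _ hx hy
      | single w r =>
        have h1 : ev (k := k) τ (MonoidAlgebra.single w r) = r • FreeMonoid.lift τ w := by
          rw [ev, MonoidAlgebra.lift_single]
        rw [h1]
        refine Subalgebra.smul_mem _ ?_ r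
        induction w using FreeMonoid.inductionOn' with
        | one => rw [map_one]; exact Subalgebra.one_mem _
        | of_mul a w ih =>
          rw [map_mul, FreeMonoid.lift_eval_of]
          exact Subalgebra.mul_mem _ (Algebra.subset_adjoin ⟨a, rfl⟩) (ih (by
            rw [ev, MonoidAlgebra.lift_single]))
    exact hlin p
  · rw [Algebra.adjoin_le_iff]
    rintro _ ⟨j, rfl⟩
    exact ⟨letter k j, ev_letter τ j⟩

end Phi

/-- Module S4. -/
theorem s4 (hP : P3lStatement) (hWA : WAStatement) : S4Statement := by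
  intro k Y _ G hG J τ hτG hτ0 hτf m x v hv hx N hN u hu hune hrel
  classical
  obtain ⟨n, rfl⟩ : ∃ n, N = n + 1 := ⟨N - 1, by omega⟩
  by_cases hcase : ∃ i, u i ≠ 0 ∧ x i ∈ Wsub τ x v (n + 1)
  · exact Or.inl hcase
  right
  push Not at hcase
  obtain ⟨i1, hi1⟩ := hune
  have hvi1 : v i1 = n + 1 := by
    by_contra h
    exact hi1 (hu i1 h)
  have hnot := hcase i1 hi1
  obtain ⟨z0, φ, hφ, hne⟩ : ∃ (z0 : Y) (φ : BA k Y →ₗ[k] k),
      (∀ b ∈ Jsub τ x v n, φ b = 0) ∧ Phi z0 φ (x i1) ≠ 0 := by
    by_contra hall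
    push Not at hall
    exact hnot (mem_W τ x v n (x i1) (by rw [← hvi1]; exact hx i1) hall)
  -- degree zero coefficients
  have hev0 : ∀ p : FA k J, Hom zd 0 (ev (k := k) τ p) := by
    intro p
    have h1 : ev (k := k) τ p ∈ Algebra.adjoin k (Set.range τ) := by
      rw [← ev_range]; exact ⟨p, rfl⟩
    have h2 : Algebra.adjoin k (Set.range τ) ≤ B0 k Y := by
      rw [Algebra.adjoin_le_iff]
      rintro _ ⟨j, rfl⟩
      exact hτ0 j
    exact h2 h1
  have hrel2 : ∑ i, ev (k := k) τ (u i) * Phi z0 φ (x i) = 0 := by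
    have h1 := Phi_kill τ x v n z0 φ hφ _ hrel
    rw [map_sum] at h1
    rw [← h1]
    refine Finset.sum_congr rfl fun i _ => ?_
    rw [Phi_left z0 φ _ _ (hev0 (u i))]
  -- P3l
  set D : LieSubalgebra k (BA k Y) := LieSubalgebra.lieSpan k (BA k Y) (Set.range τ) with hD
  have hDG : D ≤ G := by
    rw [hD, LieSubalgebra.lieSpan_le]
    rintro _ ⟨j, rfl⟩
    exact hτG j
  obtain ⟨π, hπne, hπD, hπl⟩ := hP k _ G hG.env D hDG (Phi z0 φ (x i1)) hne
  have hDadj : Algebra.adjoin k (D : Set (BA k Y)) ≤ (ev (k := k) τ).range := by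
    rw [Algebra.adjoin_le_iff]
    have h1 : D ≤ lieSubalgebraOfSubalgebra k (BA k Y) (ev (k := k) τ).range := by
      rw [hD, LieSubalgebra.lieSpan_le]
      rintro _ ⟨j, rfl⟩
      exact ⟨letter k j, ev_letter τ j⟩
    exact h1
  have hadjD : (ev (k := k) τ).range ≤ Algebra.adjoin k (D : Set (BA k Y)) := by
    rw [ev_range]
    refine Algebra.adjoin_mono ?_
    exact LieSubalgebra.subset_lieSpan
  have hq : ∀ i, ∃ q : FA k J, ev (k := k) τ q = π (Phi z0 φ (x i)) := by
    intro i
    exact hDadj (hπD _)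
  choose q hq using hq
  have hrel3 : ∑ i, u i * q i = 0 := by
    apply hτf
    rw [map_sum, map_zero]
    have h1 := congrArg π hrel2
    rw [map_sum, map_zero] at h1
    rw [← h1]
    refine Finset.sum_congr rfl fun i _ => ?_
    rw [map_mul, hq, hπl _ (ev (k := k) τ (u i)) (hadjD ⟨u i, rfl⟩)]
  refine hWA k J m u q hrel3 ⟨i1, hi1, ?_⟩
  intro h0
  apply hπne
  rw [← hq i1, h0, map_zero]

end Pool.Agent.A55.H52
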